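import Mathlib
import Pool.Agent.W560.HP.Fin2
import Pool.Agent.W376.HP.NRM

/-! The Hilbert property for the hypersurfaces
`x_0^(d-1) x_1 + x_1^(d-1) x_2 + ... + x_d^(d-1) x_(d+1) + R(x_(d+1), ..., x_n) = 0` of degree
`d >= 4` in projective `n`-space, `n >= d + 1`, `R` any nonzero form, over every finitely generated
field of characteristic zero. -/

set_option autoImplicit false

namespace Pool.Agent.Results.MP_87f965_ag.ChainHypersurfaces

open AlgebraicGeometry CategoryTheory W560.HP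

theorem result (k : Type) [Field k] [CharZero k]
    (hk : ∃ S : Finset k, IntermediateField.adjoin ℚ (S : Set k) = ⊤)
    (d n : ℕ) (hd : 4 ≤ d) (hn : d + 1 ≤ n) :
    (∀ R : MvPolynomial (Fin (n + 1)) k, R.IsHomogeneous d → R ≠ 0 →
      (∀ i ∈ R.vars, d + 1 ≤ (i : ℕ)) →
      Irreducible (chain k d n R) ∧
      ∀ (X : Scheme.{0}) (f : X ⟶ Spec (CommRingCat.of k)) [IsIntegral X]
        [LocallyOfFiniteType f], BirationalToForm k (chain k d n R) X f →
        UnirationalScheme k X f ∧ HilbertProperty k X f ∧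
        ((∀ x : X, IsIntegrallyClosed (X.presheaf.stalk x)) → HilbertPropertyIso k X f)) ∧
    ∀ c : Fin (n + 1) → k, (∀ i, c i ≠ 0) →
      (diag k d n c).IsHomogeneous d ∧ diag k d n c ≠ 0 ∧
      (∀ i ∈ (diag k d n c).vars, d + 1 ≤ (i : ℕ)) ∧
      ∀ (L : Type) [Field L] [Algebra k L] (x : Fin (n + 1) → L),
        (∀ i, MvPolynomial.aeval x
          (MvPolynomial.pderiv i (chain k d n (diag k d n c))) = 0) → x = 0 := by
  refine ⟨fun R hR hR0 hv => ⟨Pool.Agent.W460.HP.irr k d n R (by omega) hn hv,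
    fun X f _ _ hX => ?_⟩, fun c hc => ⟨diag_homogeneous, ?_, diag_vars,
    fun L _ _ x hx => diag_smooth (by omega) hn hc L x hx⟩⟩
  · have h := W560.HP.main k hk d n hd hn R hR hR0 hv X f hX
    exact ⟨h.2, h.1, fun hX => iso_of_hp Pool.Agent.W376.HP.nrm k X f hX h.1⟩
  · exact diag_ne_zero hn (by exact_mod_cast (by omega : d ≠ 0)) hc

end Pool.Agent.Results.MP_87f965_ag.ChainHypersurfaces
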